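import Mathlib
import Pool.Agent.R352.MG.B
import Pool.Agent.TH35.CH.Trv

set_option autoImplicit false

/-! Transvections in representations of `Aut(F_n)` of polynomial dimension. -/

namespace Pool.Agent.R352.CH

open Pool.Agent.H798R3.MG Pool.Agent.H29R2.MG Pool.Agent.TH35.MG Pool.Agent.TH35.CH
  Pool.Agent.Helper950.BG Pool.Agent.R352.MG Module

universe u

/-- transvections in representations of polynomial dimension -/
theorem trv_nil {n k d : ℕ} (hk : 1 ≤ k) (hkn : k + 5 ≤ n / 2) (hd1 : d < (n / 2 - 5).choose k)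
    (hd2 : d < 2 ^ (n / 2 - 4 - k)) (K : Type u) [Field K]
    (f : MulAut (FreeGroup (Fin n)) →* Matrix.GeneralLinearGroup (Fin d) K)
    {τ : MulAut (FreeGroup (Fin n))} (hτ : TrV τ) :
    ((f τ : Matrix (Fin d) (Fin d) K) - 1) ^ k = 0 := by
  obtain ⟨i, j, hij, h1, h2⟩ := hτ
  have hg0 : 0 < n / 2 := by omega
  let γ := (Fin (n / 2) ⊕ Fin (n / 2)) ⊕ Fin (n - (n / 2 + n / 2))
  let e0 : γ ≃ Fin n :=
    Fintype.equivFinOfCardEq (by
      simp only [γ, Fintype.card_sum, Fintype.card_fin]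
      omega)
  let bz : γ := Sum.inl (Sum.inr ⟨0, hg0⟩)
  let az : γ := Sum.inl (Sum.inl ⟨0, hg0⟩)
  have hne : e0 bz ≠ e0 az := by
    intro h
    have h7 : (Sum.inr ⟨0, hg0⟩ : Fin (n / 2) ⊕ Fin (n / 2)) = Sum.inl ⟨0, hg0⟩ :=
      Sum.inl_injective (e0.injective h)
    exact Sum.inr_ne_inl h7
  obtain ⟨π, hi, hj⟩ := perm_two hne hij
  let e : γ ≃ Fin n := e0.trans π
  have hei : e bz = i := hi
  have hej : e az = j := hj
  let E : FreeGroup γ ≃* FreeGroup (Fin n) := FreeGroup.freeGroupCongr e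
  have hE : ∀ z, E (FreeGroup.of z) = FreeGroup.of (e z) := fun z => by
    show FreeGroup.map e (FreeGroup.of z) = _
    rw [FreeGroup.map.of]
  have c : Ctx (n / 2) (n / 2 - 3) (n / 2 - 3 + 2) := ⟨by omega, le_refl _, by omega⟩
  have hA : MulAut.congr E (fh (n / 2) (Fin (n - (n / 2 + n / 2))) (sA (n / 2) 0)) = τ := by
    apply aut_ext
    intro k
    obtain ⟨z, rfl⟩ := e.surjective k
    have h3 : MulAut.congr E (fh (n / 2) (Fin (n - (n / 2 + n / 2))) (sA (n / 2) 0))
        (FreeGroup.of (e z)) =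
        E (fh (n / 2) (Fin (n - (n / 2 + n / 2))) (sA (n / 2) 0) (FreeGroup.of z)) := by
      show E (fh (n / 2) (Fin (n - (n / 2 + n / 2))) (sA (n / 2) 0)
        (E.symm (FreeGroup.of (e z)))) = _
      rw [← hE z, MulEquiv.symm_apply_apply]
    rw [h3]
    by_cases hz : z = bz
    · rw [hz, hei, h1]
      have h4 : FreeGroup.of bz = gb (n / 2) (Fin (n - (n / 2 + n / 2))) 0 := (gb_of hg0).symm
      have h5 : ga (n / 2) (Fin (n - (n / 2 + n / 2))) 0 = FreeGroup.of az := ga_of hg0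
      rw [h4, A_gb' c (by omega), h5, ← h4, map_mul, hE, hE, hei, hej]
    · have hez : e z ≠ i := fun h => hz (e.injective (h.trans hei.symm))
      rw [h2 _ hez]
      have h6 : fh (n / 2) (Fin (n - (n / 2 + n / 2))) (sA (n / 2) 0) (FreeGroup.of z) =
          FreeGroup.of z := by
        rcases z with (q | q) | b
        · rw [← ga_of q.2, A_ga c (by omega) q.2]
        · have hq : (q : ℕ) ≠ 0 := by
            intro h
            apply hz
            show (Sum.inl (Sum.inr q) : γ) = Sum.inl (Sum.inr ⟨0, hg0⟩)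
            congr 2
            exact Fin.ext h
          rw [← gb_of q.2, A_gb c (by omega) q.2 hq]
        · rw [fh_inr]
      rw [h6, hE]
  let Ψ : MulAut (FreeGroup γ) →* MulAut (FreeGroup (Fin n)) := (MulAut.congr E).toMonoidHom
  have r := inn_rel (β := Fin (n - (n / 2 + n / 2))) c
  have hfr : finrank (AlgebraicClosure K) (Fin d → AlgebraicClosure K) = d := by simp
  have h0 := X_zero r (((glEnd d K).comp f).comp Ψ) hk (by omega)
    (by rw [hfr, show n / 2 - 3 - 2 = n / 2 - 5 by omega]; exact hd1)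
    (by rw [hfr, show n / 2 - 3 - 1 - k = n / 2 - 4 - k by omega]; exact hd2)
  have h1 := unip_zero (mono (N' := k + 2) (by omega) r) (by omega)
    (((glEnd d K).comp f).comp Ψ) (by
      intro l hnd hl
      rw [X_list _ r.commAA (E := Finset.Ico 2 (k + 2)) (fun i hi => by
        have := Finset.mem_Ico.1 hi; omega) hnd (fun i => by rw [hl, Finset.mem_Ico]),
        X_move r _ (fun i hi => by have := Finset.mem_Ico.1 hi; omega), Nat.card_Ico,
        Nat.add_sub_cancel]
      exact h0)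
  rw [Nat.add_sub_cancel] at h1
  have h2 : ((glEnd d K).comp f).comp Ψ (fh (n / 2) (Fin (n - (n / 2 + n / 2))) (sA (n / 2) 0)) =
      phi' d K (f τ : Matrix (Fin d) (Fin d) K) := by
    rw [phi'_gl, MonoidHom.comp_apply, MonoidHom.comp_apply]
    congr 2
  apply phi'_inj d K
  rw [map_zero, map_pow, map_sub, map_one, ← h2]
  exact h1

/-- `(M - 1)^q = M^q - 1` if `q` is a power of the characteristic -/
theorem pow_char {p : ℕ} [Fact p.Prime] {K : Type u} [Field K] [CharP K p] {d : ℕ}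
    (M : Matrix (Fin d) (Fin d) K) (r : ℕ) : (M - 1) ^ (p ^ r) = M ^ (p ^ r) - 1 := by
  have h : ((Polynomial.X : Polynomial K) - 1) ^ (p ^ r) = Polynomial.X ^ (p ^ r) - 1 := by
    rw [sub_pow_char_pow, one_pow]
  have h2 := congrArg (Polynomial.aeval M) h
  simpa using h2

/-- in characteristic `p` transvections have order dividing `p^r` in representations of
polynomial dimension -/
theorem trv_char {n k d p r : ℕ} [Fact p.Prime] (hk : 1 ≤ k) (hkn : k + 5 ≤ n / 2)
    (hd1 : d < (n / 2 - 5).choose k) (hd2 : d < 2 ^ (n / 2 - 4 - k)) (hkp : k ≤ p ^ r)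
    (K : Type u) [Field K] [CharP K p]
    (f : MulAut (FreeGroup (Fin n)) →* Matrix.GeneralLinearGroup (Fin d) K)
    {τ : MulAut (FreeGroup (Fin n))} (hτ : TrV τ) : f (τ ^ (p ^ r)) = 1 := by
  have h1 := trv_nil hk hkn hd1 hd2 K f hτ
  have h2 : ((f τ : Matrix (Fin d) (Fin d) K) - 1) ^ (p ^ r) = 0 := by
    rw [← Nat.sub_add_cancel hkp, pow_add, h1, mul_zero]
  rw [pow_char, sub_eq_zero] at h2
  apply Units.ext
  rw [map_pow, Units.val_pow_eq_pow_val, h2]
  rfl

theorem choose_le_pow {M k : ℕ} (h : 5 * k ≤ M) : M.choose k ≤ 2 ^ (M - k) := by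
  have h1 : M.choose k * 4 ^ (M - k) ≤ 5 ^ M := by
    have h2 := add_pow 1 4 M
    have h3 : (1 : ℕ) ^ k * 4 ^ (M - k) * (M.choose k) ≤
        ∑ m ∈ Finset.range (M + 1), (1 : ℕ) ^ m * 4 ^ (M - m) * (M.choose m) :=
      Finset.single_le_sum (f := fun m => (1 : ℕ) ^ m * 4 ^ (M - m) * (M.choose m))
        (fun i _ => Nat.zero_le _) (Finset.mem_range.2 (by omega))
    have h4 : (1 + 4 : ℕ) ^ M =
        ∑ m ∈ Finset.range (M + 1), (1 : ℕ) ^ m * 4 ^ (M - m) * (M.choose m) := by
      rw [add_pow]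
      rfl
    rw [← h4, one_pow, one_mul] at h3
    calc M.choose k * 4 ^ (M - k) = 4 ^ (M - k) * M.choose k := mul_comm _ _
      _ ≤ (1 + 4) ^ M := h3
      _ = 5 ^ M := by norm_num
  have h5 : 5 ^ M ≤ 4 ^ (M - k) * 2 ^ (M - k) := by
    rw [← mul_pow]
    norm_num
    have h6 : (5 ^ M) ^ 5 ≤ (8 ^ (M - k)) ^ 5 := by
      calc (5 ^ M) ^ 5 = (5 ^ 5) ^ M := by rw [← pow_mul, ← pow_mul, mul_comm]
        _ ≤ (8 ^ 4) ^ M := Nat.pow_le_pow_left (by norm_num) _
        _ = 8 ^ (4 * M) := by rw [← pow_mul]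
        _ ≤ 8 ^ ((M - k) * 5) := Nat.pow_le_pow_right (by norm_num) (by omega)
        _ = (8 ^ (M - k)) ^ 5 := by rw [← pow_mul]
    exact (Nat.pow_le_pow_iff_left (by norm_num)).1 h6
  have h7 : M.choose k * 4 ^ (M - k) ≤ 2 ^ (M - k) * 4 ^ (M - k) :=
    h1.trans (h5.trans_eq (mul_comm _ _))
  exact Nat.le_of_mul_le_mul_right h7 (by positivity)

theorem choose_two_le {M : ℕ} (hM : 1 ≤ M) : M.choose 2 ≤ 2 ^ (M - 1) := by
  induction M, hM using Nat.le_induction with
  | base => decide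
  | succ M h ih =>
    have e : (M + 1).choose 2 = M + M.choose 2 := by
      rw [Nat.choose_succ_succ' M 1, Nat.choose_one_right]
    have h1 : M ≤ 2 ^ (M - 1) := by
      have := Nat.lt_two_pow_self (n := M - 1)
      omega
    have h2 : 2 ^ (M + 1 - 1) = 2 ^ (M - 1) + 2 ^ (M - 1) := by
      rw [← mul_two, ← pow_succ]
      congr 1
      omega
    omega

theorem choose_two_le' {M : ℕ} (hM : 6 ≤ M) : M.choose 2 ≤ 2 ^ (M - 2) := by
  induction M, hM using Nat.le_induction with
  | base => decide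
  | succ M h ih =>
    have e : (M + 1).choose 2 = M + M.choose 2 := by
      rw [Nat.choose_succ_succ' M 1, Nat.choose_one_right]
    have h1 : M ≤ 2 ^ (M - 2) := by
      have h3 : ∀ a : ℕ, 4 ≤ a → a + 2 ≤ 2 ^ a := by
        intro a ha
        induction a, ha using Nat.le_induction with
        | base => decide
        | succ a _ ih => rw [pow_succ]; omega
      have := h3 (M - 2) (by omega)
      omega
    have h2 : 2 ^ (M + 1 - 2) = 2 ^ (M - 2) + 2 ^ (M - 2) := by
      rw [← mul_two, ← pow_succ]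
      congr 1
      omega
    omega

theorem choose_three_le {M : ℕ} (hM : 8 ≤ M) : M.choose 3 ≤ 2 ^ (M - 2) := by
  induction M, hM using Nat.le_induction with
  | base => decide
  | succ M h ih =>
    have e : (M + 1).choose 3 = M.choose 2 + M.choose 3 := by
      rw [Nat.choose_succ_succ' M 2]
    have h1 := choose_two_le' (M := M) (by omega)
    have h2 : 2 ^ (M + 1 - 2) = 2 ^ (M - 2) + 2 ^ (M - 2) := by
      rw [← mul_two, ← pow_succ]
      congr 1
      omega
    omega

end Pool.Agent.R352.CH
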